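import Pool.Agent.H54.KVA.Defs

/-!
# Module CHF: characteristic functions and conditional variances
-/

set_option autoImplicit false

namespace Pool.KVA

open Finset Real MeasureTheory
open Pool.Agent.H49.Ent Pool.Agent.H32.Dense Pool.STK

namespace CHF

lemma cos_le {x : ℝ} (hx : |x| ≤ 1) : Real.cos x ≤ 1 - x ^ 2 / 4 := by
  have h1 := Real.cos_bound hx
  have h2 : |x| ^ 4 ≤ x ^ 2 := by
    have h3 : |x| ^ 2 ≤ 1 := by
      have := abs_nonneg x
      nlinarith
    have h5 : |x| ^ 4 = |x| ^ 2 * |x| ^ 2 := by ring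
    rw [h5, ← sq_abs x]
    exact mul_le_of_le_one_left (sq_nonneg _) h3
  have h6 := (abs_le.1 h1).2
  have h7 := sq_nonneg x
  linarith

lemma double_sum {Ω : Type} [Fintype Ω] {q : Ω → ℝ} (hq : IsLaw q) (f : Ω → ℝ) :
    ∑ a, ∑ b, q a * q b * (f a - f b) ^ 2 = 2 * Var q f := by
  have h1 : ∀ a b, q a * q b * (f a - f b) ^ 2 =
      q b * (q a * f a ^ 2) + q a * (q b * f b ^ 2) - 2 * ((q a * f a) * (q b * f b)) := by
    intro a b
    ring
  simp_rw [h1, Finset.sum_sub_distrib, Finset.sum_add_distrib, ← Finset.mul_sum, ← Finset.sum_mul,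
    hq.sum_one]
  unfold Var Ex
  ring_nf

/-- The characteristic function of a variable with oscillation at most one. -/
lemma norm_le {Ω : Type} [Fintype Ω] {q : Ω → ℝ} (hq : IsLaw q) (f : Ω → ℝ)
    (hf : ∀ a b, 0 < q a → 0 < q b → |f a - f b| ≤ 1) :
    ‖∑ ω', ((q ω' : ℝ) : ℂ) * Complex.exp (Complex.I * (f ω' : ℂ))‖ ≤ 1 - Var q f / 4 := by
  set S : ℂ := ∑ ω', ((q ω' : ℝ) : ℂ) * Complex.exp (Complex.I * (f ω' : ℂ)) with hS
  have hre : S.re = ∑ a, q a * Real.cos (f a) := by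
    rw [hS, Complex.re_sum]
    refine Finset.sum_congr rfl fun a _ => ?_
    rw [mul_comm Complex.I, Complex.re_ofReal_mul, Complex.exp_ofReal_mul_I_re]
  have him : S.im = ∑ a, q a * Real.sin (f a) := by
    rw [hS, Complex.im_sum]
    refine Finset.sum_congr rfl fun a _ => ?_
    rw [mul_comm Complex.I, Complex.im_ofReal_mul, Complex.exp_ofReal_mul_I_im]
  have hsq : ‖S‖ ^ 2 = ∑ a, ∑ b, q a * q b * Real.cos (f a - f b) := by
    rw [← Complex.normSq_eq_norm_sq, Complex.normSq_apply, hre, him, Finset.sum_mul_sum,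
      Finset.sum_mul_sum, ← Finset.sum_add_distrib]
    refine Finset.sum_congr rfl fun a _ => ?_
    rw [← Finset.sum_add_distrib]
    refine Finset.sum_congr rfl fun b _ => ?_
    rw [Real.cos_sub]
    ring
  have hle : ‖S‖ ^ 2 ≤ 1 - Var q f / 2 := by
    have h1 : (1 : ℝ) - Var q f / 2 = ∑ a, ∑ b, q a * q b * (1 - (f a - f b) ^ 2 / 4) := by
      have h2 : ∀ a b, q a * q b * (1 - (f a - f b) ^ 2 / 4) =
          q a * q b - (q a * q b * (f a - f b) ^ 2) / 4 := by
        intro a b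
        ring
      simp_rw [h2, Finset.sum_sub_distrib, ← Finset.sum_div, double_sum hq f,
        ← Finset.mul_sum, hq.sum_one, mul_one, hq.sum_one]
      ring
    rw [hsq, h1]
    refine Finset.sum_le_sum fun a _ => Finset.sum_le_sum fun b _ => ?_
    rcases (hq.nonneg a).eq_or_lt with ha | ha
    · rw [← ha]
      simp
    rcases (hq.nonneg b).eq_or_lt with hb | hb
    · rw [← hb]
      simp
    exact mul_le_mul_of_nonneg_left (cos_le (hf a b ha hb)) (mul_nonneg ha.le hb.le)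
  have hvar : Var q f ≤ 2 := by
    have := sq_nonneg ‖S‖
    linarith
  have h3 : ‖S‖ ^ 2 ≤ (1 - Var q f / 4) ^ 2 := by
    have := sq_nonneg (Var q f / 4)
    nlinarith
  exact le_of_sq_le_sq h3 (by linarith)

end CHF

theorem chf_thm : CHFStmt := by
  intro Ω T _ p f Z hp hf
  have h1 : ∀ ω, 0 < p ω →
      ‖∑ ω', ((cond p Z (Z ω) ω' : ℝ) : ℂ) * Complex.exp (Complex.I * (f ω' : ℂ))‖ ≤
        1 - Var (cond p Z (Z ω)) f / 4 := by
    intro ω hω
    have hl : IsLaw (cond p Z (Z ω)) :=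
      ⟨cond_nonneg hp.nonneg Z (Z ω), sum_cond p Z (law_pos hp.nonneg Z hω).ne'⟩
    refine CHF.norm_le hl f fun a b ha hb => ?_
    rw [cond_pos_iff hp.nonneg] at ha hb
    exact hf a b ha.1 hb.1 (ha.2.trans hb.2.symm)
  calc Ex p (fun ω => ‖∑ ω', ((cond p Z (Z ω) ω' : ℝ) : ℂ) *
        Complex.exp (Complex.I * (f ω' : ℂ))‖)
      ≤ Ex p (fun ω => 1 - (1 / 4) * Var (cond p Z (Z ω)) f) := by
        refine Ex_mono hp.nonneg fun ω hω => ?_
        have := h1 ω hω
        linarith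
    _ = 1 - (1 / 4) * cVar p f Z := by
        rw [Ex_sub, Ex_const hp.sum_one, Ex_smul]
        rfl
    _ ≤ Real.exp (-(cVar p f Z) / 4) := by
        have := Real.add_one_le_exp (-(cVar p f Z) / 4)
        linarith

end Pool.KVA
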