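import Pool.Agent.H54.KVA.Defs2
import Pool.Agent.H58.STK.Base

/-!
# Module ZOM: zooming in under a law for which the first digits are constant
-/

set_option autoImplicit false

namespace Pool.KVA

open Finset Real MeasureTheory
open Pool.Agent.H49.Ent Pool.Agent.H32.Dense Pool.STK

namespace ZOM

/-- The digits of the zoomed sum. -/
lemma fl_ad {Ω : Type} {d : ℕ} (X Y : Ω → Fin d → ℝ) (s k : ℕ) (ω : Ω) (i : Fin d) :
    Fl (ad (zo s X) (zo s Y)) k ω i =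
      Fl (ad X Y) (s + k) ω i - 2 ^ k * (Fl X s ω i + Fl Y s ω i) := by
  show ⌊(2 : ℝ) ^ k * (Int.fract (2 ^ s * X ω i) + Int.fract (2 ^ s * Y ω i))⌋ =
    ⌊(2 : ℝ) ^ (s + k) * (X ω i + Y ω i)⌋ - 2 ^ k * (⌊(2 : ℝ) ^ s * X ω i⌋ + ⌊(2 : ℝ) ^ s * Y ω i⌋)
  rw [Int.fract, Int.fract, ← Int.floor_sub_intCast]
  congr 1
  push_cast
  rw [pow_add]
  ring

end ZOM

theorem zom_thm : ZOMStmt := by
  intro d Ω _ p X Y s k hp hX hY
  have hx : ∀ ω ω', 0 < p ω → 0 < p ω' →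
      (Fl (zo s X) k ω = Fl (zo s X) k ω' ↔ Fl X (s + k) ω = Fl X (s + k) ω') := fun ω ω' h h' =>
    ⟨fun e => B58.Fl_det_zo X s k e (hX ω ω' h h'), fun e => B58.Fl_zo_det X s k e (hX ω ω' h h')⟩
  have hy : ∀ ω ω', 0 < p ω → 0 < p ω' →
      (Fl (zo s Y) k ω = Fl (zo s Y) k ω' ↔ Fl Y (s + k) ω = Fl Y (s + k) ω') := fun ω ω' h h' =>
    ⟨fun e => B58.Fl_det_zo Y s k e (hY ω ω' h h'), fun e => B58.Fl_zo_det Y s k e (hY ω ω' h h')⟩
  refine ⟨?_, ?_, ?_, ?_⟩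
  · exact H_congr hp.nonneg (fun ω ω' h h' e => (hx ω ω' h h').2 e)
      (fun ω ω' h h' e => (hx ω ω' h h').1 e)
  · exact H_congr hp.nonneg (fun ω ω' h h' e => (hy ω ω' h h').2 e)
      (fun ω ω' h h' e => (hy ω ω' h h').1 e)
  · refine H_congr hp.nonneg (fun ω ω' h h' e => ?_) (fun ω ω' h h' e => ?_)
    · have e' : (Fl X (s + k) ω, Fl Y (s + k) ω) = (Fl X (s + k) ω', Fl Y (s + k) ω') := e
      obtain ⟨e1, e2⟩ := Prod.mk.inj e'
      exact Prod.ext ((hx ω ω' h h').2 e1) ((hy ω ω' h h').2 e2)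
    · have e' : (Fl (zo s X) k ω, Fl (zo s Y) k ω) = (Fl (zo s X) k ω', Fl (zo s Y) k ω') := e
      obtain ⟨e1, e2⟩ := Prod.mk.inj e'
      exact Prod.ext ((hx ω ω' h h').1 e1) ((hy ω ω' h h').1 e2)
  · refine H_congr hp.nonneg (fun ω ω' h h' e => ?_) (fun ω ω' h h' e => ?_)
    · funext i
      rw [ZOM.fl_ad, ZOM.fl_ad, e, hX ω ω' h h', hY ω ω' h h']
    · funext i
      have e1 := congrFun e i
      rw [ZOM.fl_ad, ZOM.fl_ad, hX ω ω' h h', hY ω ω' h h'] at e1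
      linarith

end Pool.KVA
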